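import Pool.Agent.Y262.EX.Stm

/-!
# Smoothness of superposition operators
-/

set_option autoImplicit false

open Set Filter Topology
open scoped ContDiff

noncomputable section

namespace Pool.Agent.Y380.EX

variable {K : Type} [TopologicalSpace K] [CompactSpace K]

/-- the superposition operator of `X` -/
def NX {E F : Type} [NormedAddCommGroup E] [NormedAddCommGroup F] (X : E → F) (hX : Continuous X)
    (α : C(K, E)) : C(K, F) := ⟨fun t => X (α t), hX.comp α.continuous⟩

omit [CompactSpace K] in
theorem continuous_NX {E F : Type} [NormedAddCommGroup E] [NormedAddCommGroup F] (X : E → F)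
    (hX : Continuous X) : Continuous (NX (K := K) X hX) :=
  ContinuousMap.continuous_postcomp (⟨X, hX⟩ : C(E, F))

/-- evaluation of a continuous family of linear maps -/
def BB (K : Type) [TopologicalSpace K] [CompactSpace K] (E F : Type) [NormedAddCommGroup E]
    [NormedSpace ℝ E] [NormedAddCommGroup F] [NormedSpace ℝ F] :
    C(K, E →L[ℝ] F) →L[ℝ] (C(K, E) →L[ℝ] C(K, F)) :=
  LinearMap.mkContinuous₂
    (LinearMap.mk₂ ℝ (fun (Φ : C(K, E →L[ℝ] F)) (h : C(K, E)) =>
      (⟨fun t => Φ t (h t), Φ.continuous.clm_apply h.continuous⟩ : C(K, F)))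
      (by
        intro Φ Ψ h
        ext t
        simp)
      (by
        intro c Φ h
        ext t
        simp)
      (by
        intro Φ h k
        ext t
        simp)
      (by
        intro c Φ h
        ext t
        simp)) 1 (by
      intro Φ h
      rw [ContinuousMap.norm_le _ (by positivity)]
      intro t
      rw [one_mul]
      exact (ContinuousLinearMap.le_opNorm _ _).trans
        (mul_le_mul (Φ.norm_coe_le_norm t) (h.norm_coe_le_norm t) (norm_nonneg _) (by positivity)))

@[simp] theorem BB_apply {E F : Type} [NormedAddCommGroup E]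
    [NormedSpace ℝ E] [NormedAddCommGroup F] [NormedSpace ℝ F] (Φ : C(K, E →L[ℝ] F)) (h : C(K, E))
    (t : K) : BB K E F Φ h t = Φ t (h t) := rfl

theorem hasFDerivAt_NX {E F : Type} [NormedAddCommGroup E] [NormedSpace ℝ E]
    [NormedAddCommGroup F] [NormedSpace ℝ F] (X : E → F) (X' : E → E →L[ℝ] F)
    (hX : Continuous X) (hX' : Continuous X') (hd : ∀ x, HasFDerivAt X (X' x) x) (α : C(K, E)) :
    HasFDerivAt (NX (K := K) X hX) (BB K E F (NX X' hX' α)) α := by
  rw [hasFDerivAt_iff_isLittleO, Asymptotics.isLittleO_iff]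
  intro c hc
  have hK : IsCompact (range α) := isCompact_range α.continuous
  have h1 := hK.uniformContinuousAt_of_continuousAt X' (fun a _ => hX'.continuousAt)
    (Metric.dist_mem_uniformity hc)
  rw [Metric.mem_uniformity_dist] at h1
  obtain ⟨δ, hδ, h1⟩ := h1
  filter_upwards [Metric.ball_mem_nhds α hδ] with β hβ
  rw [ContinuousMap.norm_le _ (by positivity)]
  intro t
  have ht : dist (β t) (α t) < δ := (ContinuousMap.dist_apply_le_dist t).trans_lt hβ
  have h2 := Convex.norm_image_sub_le_of_norm_hasFDerivWithin_le' (𝕜 := ℝ) (f := X) (f' := X')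
    (s := Metric.ball (α t) δ) (φ := X' (α t)) (C := c) (x := α t) (y := β t)
    (fun x _ => (hd x).hasFDerivWithinAt) (fun x hx => by
      have h3 := @h1 (α t) x (by rw [dist_comm]; exact hx) (mem_range_self t)
      rw [← dist_eq_norm, dist_comm]
      exact h3.le) (convex_ball _ _) (Metric.mem_ball_self hδ) ht
  have h4 : ‖β t - α t‖ ≤ ‖β - α‖ := (β - α).norm_coe_le_norm t
  calc ‖(NX X hX β - NX X hX α - (BB K E F (NX X' hX' α)) (β - α)) t‖
      = ‖X (β t) - X (α t) - (X' (α t)) (β t - α t)‖ := rfl
    _ ≤ c * ‖β t - α t‖ := h2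
    _ ≤ c * ‖β - α‖ := by gcongr

theorem contDiff_NX {E : Type} [NormedAddCommGroup E] [NormedSpace ℝ E] (n : ℕ) :
    ∀ (F : Type) [NormedAddCommGroup F] [NormedSpace ℝ F] (X : E → F) (hX : ContDiff ℝ ∞ X),
      ContDiff ℝ n (NX (K := K) X hX.continuous) := by
  induction n with
  | zero =>
    intro F _ _ X hX
    exact contDiff_zero.2 (continuous_NX X hX.continuous)
  | succ n ih =>
    intro F _ _ X hX
    have hX' : ContDiff ℝ ∞ (fderiv ℝ X) := hX.fderiv_right (by simp)
    have h1 := ih (E →L[ℝ] F) (fderiv ℝ X) hX'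
    have h2 : ContDiff ℝ (n + 1) (NX (K := K) X hX.continuous) := by
      rw [contDiff_succ_iff_hasFDerivAt]
      refine ⟨fun α => BB K E F (NX (fderiv ℝ X) hX'.continuous α), ?_, ?_⟩
      · exact (BB K E F).contDiff.comp h1
      · intro α
        exact hasFDerivAt_NX X (fderiv ℝ X) hX.continuous hX'.continuous
          (fun x => (hX.differentiable (by simp) x).hasFDerivAt) α
    exact_mod_cast h2

/-- superposition operators are smooth -/
theorem nem : Pool.Agent.Y262.EX.StNem := by
  intro K E F _ _ _ _ _ _ X hX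
  rw [contDiff_infty]
  intro n
  exact contDiff_NX n F X hX

end Pool.Agent.Y380.EX
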